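import Mathlib

set_option autoImplicit false

namespace Pool.Agent.H.MP_6ac647_co

open SimpleGraph Finset

/-- `H` contains a copy of `F` that uses the edge `e`. -/
def Uses {α V : Type} (F : SimpleGraph α) (H : SimpleGraph V) (e : Sym2 V) : Prop :=
  ∃ c : F.Copy H, ∃ a b, F.Adj a b ∧ s(c a, c b) = e

/-- `G` is weakly `F`-saturated. -/
def WSat {α V : Type} (F : SimpleGraph α) (G : SimpleGraph V) : Prop :=
  F.Free G ∧ ∃ L : List (Sym2 V), L.Nodup ∧ (∀ e, e ∈ L ↔ e ∈ Gᶜ.edgeSet) ∧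
    ∀ (i : ℕ) (h : i < L.length), Uses F (G ⊔ fromEdgeSet {e | e ∈ L.take (i + 1)}) L[i]

/-- `w = wsat(n, K_{s,t})`. -/
def IsWsat (n s t w : ℕ) : Prop :=
  IsLeast {m | ∃ G : SimpleGraph (Fin n),
    WSat (completeBipartiteGraph (Fin s) (Fin t)) G ∧ G.edgeSet.ncard = m} w

def Q {α V : Type} (F : SimpleGraph α) (G : SimpleGraph V) : Prop :=
  ∀ H, G ≤ H → H ≠ ⊤ → ∃ e ∈ Hᶜ.edgeSet, Uses F (H ⊔ fromEdgeSet {e}) e

lemma Uses.mono {α V : Type} {F : SimpleGraph α} {H H' : SimpleGraph V} {e : Sym2 V}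
    (h : Uses F H e) (l : H ≤ H') : Uses F H' e := by
  obtain ⟨c, a, b, h1, h2⟩ := h
  exact ⟨(Copy.ofLE _ _ l).comp c, a, b, h1, h2⟩

lemma lst {α V : Type} [Finite V] (F : SimpleGraph α) (k : ℕ) : ∀ G : SimpleGraph V,
    Gᶜ.edgeSet.ncard = k → Q F G → ∃ L : List (Sym2 V), L.Nodup ∧ (∀ e, e ∈ L ↔ e ∈ Gᶜ.edgeSet) ∧
    ∀ (i : ℕ) (h : i < L.length), Uses F (G ⊔ fromEdgeSet {e | e ∈ L.take (i + 1)}) L[i] := by
  induction k with
  | zero =>
    intro G h _
    rw [Set.ncard_eq_zero (Set.toFinite _)] at h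
    exact ⟨[], List.nodup_nil, by simp [h], fun i h => absurd h (by simp)⟩
  | succ k ih =>
    intro G h q
    obtain ⟨e, he, u⟩ := q G le_rfl (by rintro rfl; simp at h)
    have c : (G ⊔ fromEdgeSet {e})ᶜ.edgeSet = Gᶜ.edgeSet \ {e} := by
      ext x
      induction x using Sym2.ind with
      | _ a b =>
        simp only [mem_edgeSet, compl_adj, sup_adj, fromEdgeSet_adj, Set.mem_sdiff,
          Set.mem_singleton_iff]
        tauto
    obtain ⟨L, l1, l2, l3⟩ := ih (G ⊔ fromEdgeSet {e})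
      (by rw [c, Set.ncard_sdiff_singleton_of_mem he, h]; rfl)
      (fun H a b => q H (le_sup_left.trans a) b)
    refine ⟨e :: L, List.nodup_cons.2 ⟨fun a => (c ▸ (l2 e).1 a).2 rfl, l1⟩, fun x => ?_,
      fun i hi => ?_⟩
    · rw [List.mem_cons, l2, c, Set.mem_sdiff, Set.mem_singleton_iff]
      constructor
      · rintro (rfl | a)
        · exact he
        · exact a.1
      · intro a
        by_cases b : x = e
        · exact Or.inl b
        · exact Or.inr ⟨a, b⟩
    · cases i with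
      | zero => exact u.mono (sup_le_sup_left (fromEdgeSet_mono (by simp)) _)
      | succ i =>
        refine (l3 i (by simpa using hi)).mono (sup_le (sup_le_sup_left (fromEdgeSet_mono ?_) _)
          (le_sup_of_le_right (fromEdgeSet_mono ?_)))
        · simp
        · intro x hx
          simp only [List.take_succ_cons, Set.mem_ofPred_eq, List.mem_cons]
          exact Or.inr hx

lemma free {α V : Type} [Finite V] (F : SimpleGraph α) (a b : α) (hab : F.Adj a b) (k : ℕ) :
    ∀ G : SimpleGraph V, G.edgeSet.ncard = k → Q F G →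
      ∃ G' : SimpleGraph V, WSat F G' ∧ G'.edgeSet.ncard ≤ k := by
  induction k using Nat.strong_induction_on with
  | _ k ih =>
    intro G h q
    by_cases f : F.Free G
    · exact ⟨G, ⟨f, lst F _ G rfl q⟩, h.le⟩
    · obtain ⟨c⟩ := not_free.1 f
      have m : s(c a, c b) ∈ G.edgeSet := c.toHom.map_adj hab
      have lt : (G.deleteEdges {s(c a, c b)}).edgeSet.ncard < k := by
        rw [edgeSet_deleteEdges, ← h]
        exact Set.ncard_sdiff_singleton_lt_of_mem m (Set.toFinite _)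
      obtain ⟨G', g1, g2⟩ := ih _ lt _ rfl (fun H l n => by
        have z : G ≤ H ⊔ fromEdgeSet {s(c a, c b)} := fun x y p => by
          by_cases r : s(x, y) = s(c a, c b)
          · exact Or.inr ⟨r, p.ne⟩
          · exact Or.inl (l (by simp only [deleteEdges_adj, Set.mem_singleton_iff]; exact ⟨p, r⟩))
        by_cases p : H.Adj (c a) (c b)
        · refine q H (z.trans (sup_le le_rfl ?_)) n
          rw [fromEdgeSet_le]
          exact Set.sdiff_subset.trans (by simpa using p)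
        · exact ⟨s(c a, c b), ⟨(G.ne_of_adj m), p⟩, Uses.mono ⟨c, a, b, hab, rfl⟩ z⟩)
      exact ⟨G', g1, g2.trans lt.le⟩

def G0 (n N s : ℕ) : SimpleGraph (Fin n) where
  Adj u v := u ≠ v ∧ (((u : ℕ) < N ∧ (v : ℕ) < N) ∨ (u : ℕ) + 1 < s ∨ (v : ℕ) + 1 < s)
  symm := ⟨fun u v h => ⟨h.1.symm, by tauto⟩⟩
  loopless := ⟨fun u h => h.1 rfl⟩

lemma Q0 (n s t : ℕ) (hs : 0 < s) (ht : 0 < t) :
    Q (completeBipartiteGraph (Fin s) (Fin t)) (G0 n (s + t) s) := by
  intro H l ne
  have ex : ∃ x : ℕ, ∃ hx : x < n, ∃ w : Fin n, (w : ℕ) < x ∧ ¬ H.Adj ⟨x, hx⟩ w := by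
    by_contra c
    push Not at c
    refine ne (eq_top_iff.2 fun u v h => ?_)
    rcases lt_or_gt_of_ne (show u ≠ v from h) with p | p
    · exact (c v v.2 u p).symm
    · exact c u u.2 v p
  classical
  obtain ⟨hx, w, w1, w2⟩ := Nat.find_spec ex
  have mn : ∀ u v : Fin n, (u : ℕ) < Nat.find ex → (v : ℕ) < Nat.find ex → u ≠ v → H.Adj u v := by
    intro u v a b c
    by_contra d
    rcases lt_or_gt_of_ne c with p | p
    · exact Nat.find_min ex b ⟨v.2, u, p, fun e => d e.symm⟩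
    · exact Nat.find_min ex a ⟨u.2, v, p, d⟩
  generalize Nat.find ex = x at *
  have ne2 : (⟨x, hx⟩ : Fin n) ≠ w := fun e => by rw [← e] at w1; exact lt_irrefl _ w1
  have g : ¬ (G0 n (s + t) s).Adj ⟨x, hx⟩ w := fun e => w2 (l e)
  simp only [G0, ne_eq, ne2, not_false_eq_true, true_and, not_or] at g
  obtain ⟨g1, g2, g3⟩ := g
  have g4 : s + t ≤ x := by omega
  let φ : Fin s ⊕ Fin t → ℕ := Sum.elim (fun a => if (a : ℕ) + 1 < s then a else w)
    (fun b => if (b : ℕ) = 0 then x else if s + b - 2 < w then s + b - 2 else s + b - 1)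
  have b1 : ∀ a, φ a < n := by
    rintro (a | a)
    · have := a.2
      simp only [φ, Sum.elim_inl]
      split_ifs <;> omega
    · have := a.2
      simp only [φ, Sum.elim_inr]
      split_ifs <;> omega
  have inj : Function.Injective φ := by
    rintro (a | a) (b | b) <;> have := a.2 <;> have := b.2 <;>
      simp only [φ, Sum.elim_inl, Sum.elim_inr, Sum.inl.injEq, Sum.inr.injEq, Fin.ext_iff,
        reduceCtorEq] <;> split_ifs <;> omega
  have key : ∀ (a : Fin s) (b : Fin t), (H ⊔ fromEdgeSet {s(⟨x, hx⟩, w)}).Adj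
      ⟨φ (.inl a), b1 _⟩ ⟨φ (.inr b), b1 _⟩ := by
    intro a b
    have nn : (⟨φ (.inl a), b1 _⟩ : Fin n) ≠ ⟨φ (.inr b), b1 _⟩ := fun e => by
      simpa using @inj (.inl a) (.inr b) (Fin.ext_iff.1 e)
    have := a.2
    have := b.2
    by_cases p : (a : ℕ) + 1 < s
    · exact Or.inl (l ⟨nn, Or.inr (Or.inl (by simpa only [φ, Sum.elim_inl, if_pos p] using p))⟩)
    · by_cases r : (b : ℕ) = 0
      · refine Or.inr ⟨?_, nn⟩
        refine Set.mem_singleton_iff.2 (Sym2.eq_iff.2 ?_)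
        exact Or.inr ⟨Fin.ext (by simp only [φ, Sum.elim_inl, if_neg p]),
          Fin.ext (by simp only [φ, Sum.elim_inr, if_pos r])⟩
      · refine Or.inl (mn _ _ ?_ ?_ nn)
        · simpa only [φ, Sum.elim_inl, if_neg p] using w1
        · simp only [φ, Sum.elim_inr, if_neg r]
          split_ifs <;> omega
  refine ⟨s(⟨x, hx⟩, w), ⟨ne2, w2⟩, ⟨⟨fun a => ⟨φ a, b1 a⟩, ?_⟩, fun a b e =>
    inj (Fin.ext_iff.1 e)⟩, .inr ⟨0, ht⟩, .inl ⟨s - 1, by omega⟩, by simp, ?_⟩
  · rintro (a | a) (b | b) h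
    · simp at h
    · exact key a b
    · exact (key b a).symm
    · simp at h
  · rw [Sym2.eq_iff]
    refine Or.inl ⟨Fin.ext ?_, Fin.ext ?_⟩
    · show φ (.inr ⟨0, ht⟩) = x
      simp [φ]
    · show φ (.inl ⟨s - 1, by omega⟩) = w
      simp only [φ, Sum.elim_inl]
      rw [if_neg (by omega)]

lemma cardG0 (N j s : ℕ) (h : s ≤ N) :
    (G0 (N + j) N s).edgeSet.ncard ≤ N.choose 2 + j * (s - 1) := by
  classical
  have c1 : ∀ m, m ≤ N + j → #{i : Fin (N + j) | (i : ℕ) < m} = m := fun m hm => by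
    rw [Fin.card_filter_val_lt, min_eq_right hm]
  have c2 : #{i : Fin (N + j) | ¬ (i : ℕ) < N} = j := by
    have := card_filter_add_card_filter_not (s := univ) fun i : Fin (N + j) => (i : ℕ) < N
    rw [c1 N (by omega), card_univ, Fintype.card_fin] at this
    omega
  have sub : (G0 (N + j) N s).edgeSet ⊆ ((({i : Fin (N + j) | (i : ℕ) < N} : Finset _).offDiag.image
      Sym2.mk.uncurry ∪ (({i : Fin (N + j) | ¬ (i : ℕ) < N} : Finset _) ×ˢ
      ({i : Fin (N + j) | (i : ℕ) < s - 1} : Finset _)).image Sym2.mk.uncurry : Finset _) : Set _) := by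
    intro e he
    induction e using Sym2.ind with
    | _ u v =>
      obtain ⟨a, b⟩ : (G0 (N + j) N s).Adj u v := he
      simp only [coe_union, coe_image, Set.mem_union, Set.mem_image, mem_coe, mem_offDiag,
        mem_product, mem_filter, mem_univ, true_and]
      by_cases p : (u : ℕ) < N
      · by_cases r : (v : ℕ) < N
        · exact Or.inl ⟨(u, v), ⟨p, r, a⟩, rfl⟩
        · exact Or.inr ⟨(v, u), ⟨r, by simp only; omega⟩, Sym2.eq_swap⟩
      · exact Or.inr ⟨(u, v), ⟨p, by simp only; omega⟩, rfl⟩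
  refine (Set.ncard_le_ncard sub (Set.toFinite _)).trans ?_
  rw [Set.ncard_coe_finset]
  refine (card_union_le _ _).trans (Nat.add_le_add ?_ (card_image_le.trans ?_))
  · rw [Sym2.card_image_offDiag, c1 N (by omega)]
  · rw [card_product, c2, c1 _ (by omega)]

lemma upper (s t j : ℕ) (hs : 0 < s) (ht : 0 < t) :
    ∃ w, IsWsat (s + t + j) s t w ∧ w ≤ (s + t).choose 2 + j * (s - 1) := by
  obtain ⟨G, g1, g2⟩ := free (completeBipartiteGraph (Fin s) (Fin t)) (.inl ⟨0, hs⟩) (.inr ⟨0, ht⟩)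
    (by simp) _ _ rfl (Q0 (s + t + j) s t hs ht)
  have m : G.edgeSet.ncard ∈ {m | ∃ G : SimpleGraph (Fin (s + t + j)),
    WSat (completeBipartiteGraph (Fin s) (Fin t)) G ∧ G.edgeSet.ncard = m} := ⟨G, g1, rfl⟩
  exact ⟨_, ⟨Nat.sInf_mem ⟨_, m⟩, fun _ h => Nat.sInf_le h⟩,
    (Nat.sInf_le m).trans (g2.trans (cardG0 _ _ _ (by omega)))⟩

lemma vecs (n N : ℕ) : ∃ x : Fin n → Fin N → ℚ,
    (∀ (u : Fin n) (a b : Fin N), (u : ℕ) = a → x u b = if a = b then 1 else 0) ∧
    ∀ {ι : Type} [Fintype ι] (f : ι → Fin n), Function.Injective f → Fintype.card ι = N + 1 →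
      ∃ c : ι → ℚ, (∀ i, c i ≠ 0) ∧ ∀ b, ∑ i, c i * x (f i) b = 0 := by
  have inj : Set.InjOn (fun a : Fin N => ((a : ℕ) : ℚ)) (univ : Finset (Fin N)) :=
    fun a _ b _ h => Fin.ext (Nat.cast_injective (R := ℚ) h)
  refine ⟨fun u b => (Lagrange.basis univ (fun a : Fin N => ((a : ℕ) : ℚ)) b).eval ((u : ℕ) : ℚ),
    fun u a b h => ?_, fun {ι} _ f hf hc => ?_⟩
  · simp only [h]
    split_ifs with e
    · subst e
      exact Lagrange.eval_basis_self inj (mem_univ _)
    · exact Lagrange.eval_basis_of_ne (v := fun a : Fin N => ((a : ℕ) : ℚ)) (Ne.symm e) (mem_univ _)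
  · classical
    have i2 : Set.InjOn (fun i : ι => ((f i : ℕ) : ℚ)) (univ : Finset ι) :=
      fun a _ b _ h => hf (Fin.ext (Nat.cast_injective (R := ℚ) h))
    refine ⟨fun i => (∏ j ∈ univ.erase i, (((f i : ℕ) : ℚ) - (f j : ℕ)))⁻¹, fun i => ?_, fun b => ?_⟩
    · refine inv_ne_zero (prod_ne_zero_iff.2 fun j hj => sub_ne_zero.2 fun e => ?_)
      exact (mem_erase.1 hj).1 (i2 (mem_univ _) (mem_univ _) e).symm
    · have d := Lagrange.natDegree_basis inj (mem_univ b)
      rw [card_univ, Fintype.card_fin] at d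
      have := b.pos
      have h := Lagrange.coeff_eq_sum i2
        (P := Lagrange.basis univ (fun a : Fin N => ((a : ℕ) : ℚ)) b)
        (lt_of_le_of_lt Polynomial.degree_le_natDegree (by
          rw [d, card_univ, hc]; exact_mod_cast (by omega : N - 1 < N + 1)))
      rw [Polynomial.coeff_eq_zero_of_natDegree_lt (by rw [d, card_univ, hc]; omega)] at h
      rw [h]
      exact sum_congr rfl fun i _ => by rw [div_eq_inv_mul]

lemma close {n s t : ℕ} (φ : Fin n → Fin n → ℚ) (an : ∀ u v, φ u v = -φ v u)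
    (f : Fin s ⊕ Fin t → Fin n) (c : Fin s ⊕ Fin t → ℚ) (c0 : ∀ i, c i ≠ 0)
    (row : ∀ u, ∑ i, c i * φ u (f i) = 0) (a : Fin s) (b : Fin t)
    (h : ∀ a' b', (a', b') ≠ (a, b) → φ (f (.inl a')) (f (.inr b')) = 0) :
    φ (f (.inl a)) (f (.inr b)) = 0 := by
  have e1 : ∑ p : Fin s × Fin t, c (.inl p.1) * (c (.inr p.2) * φ (f (.inl p.1)) (f (.inr p.2))) =
      -∑ a, ∑ a', c (.inl a) * (c (.inl a') * φ (f (.inl a)) (f (.inl a'))) := by
    rw [Fintype.sum_prod_type, ← sum_neg_distrib]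
    refine sum_congr rfl fun a _ => ?_
    have := row (f (.inl a))
    rw [Fintype.sum_sum_type] at this
    simp only [← mul_sum]
    rw [eq_neg_of_add_eq_zero_right this]
    ring
  have e2 : ∑ a, ∑ a', c (.inl a) * (c (.inl a') * φ (f (.inl a)) (f (.inl a'))) =
      -∑ a, ∑ a', c (.inl a) * (c (.inl a') * φ (f (.inl a)) (f (.inl a'))) := by
    conv_lhs => rw [sum_comm]
    simp only [← sum_neg_distrib]
    exact sum_congr rfl fun a _ => sum_congr rfl fun a' _ => by rw [an]; ring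
  rw [sum_eq_single (a, b) (fun p _ hp => by rw [h p.1 p.2 hp]; simp) (by simp)] at e1
  have e3 : c (.inl a) * (c (.inr b) * φ (f (.inl a)) (f (.inr b))) = 0 := by linarith
  simpa [c0] using e3

lemma spread {n s t : ℕ} (φ : Fin n → Fin n → ℚ) (an : ∀ u v, φ u v = -φ v u)
    (row : ∀ f : Fin s ⊕ Fin t → Fin n, Function.Injective f →
      ∃ c : Fin s ⊕ Fin t → ℚ, (∀ i, c i ≠ 0) ∧ ∀ u, ∑ i, c i * φ u (f i) = 0)
    (G : SimpleGraph (Fin n)) (w : WSat (completeBipartiteGraph (Fin s) (Fin t)) G)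
    (h : ∀ u v, G.Adj u v → φ u v = 0) (u v : Fin n) (uv : u ≠ v) : φ u v = 0 := by
  obtain ⟨-, L, -, l2, l3⟩ := w
  have sy : ∀ {u v u' v' : Fin n}, s(u, v) = s(u', v') → φ u v = 0 → φ u' v' = 0 := by
    intro u v u' v' e z
    rcases Sym2.eq_iff.1 e with ⟨rfl, rfl⟩ | ⟨rfl, rfl⟩
    · exact z
    · rw [an, z, neg_zero]
  have main : ∀ i, ∀ u v, s(u, v) ∈ L.take i → φ u v = 0 := by
    intro i
    induction i with
    | zero => simp
    | succ i ih =>
      intro u v m
      by_cases hi : i < L.length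
      · have tk : ∀ e ∈ L.take (i + 1), e ∈ L.take i ∨ e = L[i] := fun e m => by
          rwa [List.take_succ_eq_append_getElem hi, List.mem_append, List.mem_singleton] at m
        replace m := tk _ m
        refine m.elim (ih u v) fun m => ?_
        obtain ⟨c, a, b, ab, e⟩ := l3 i hi
        obtain ⟨k, k0, k1⟩ := row c c.injective
        have key : ∀ a b, s(c (.inl a), c (.inr b)) = L[i] → φ (c (.inl a)) (c (.inr b)) = 0 := by
          intro a b e
          refine close φ an c k k0 k1 a b fun a' b' ne => ?_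
          have ad : (G ⊔ fromEdgeSet {e | e ∈ L.take (i + 1)}).Adj (c (.inl a')) (c (.inr b')) :=
            c.toHom.map_adj (by simp)
          rcases ad with ad | ⟨ad, -⟩
          · exact h _ _ ad
          · have ad := tk _ ad
            refine ad.elim (ih _ _) fun ad => absurd ?_ ne
            rcases Sym2.eq_iff.1 (ad.trans e.symm) with ⟨p, q⟩ | ⟨p, -⟩
            · rw [Sum.inl.inj (c.injective p), Sum.inr.inj (c.injective q)]
            · simpa using c.injective p
        rcases a with a | a <;> rcases b with b | b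
        · simp at ab
        · exact sy (e.trans m.symm) (key a b e)
        · exact sy (Sym2.eq_swap.trans (e.trans m.symm)) (key b a (Sym2.eq_swap.trans e))
        · simp at ab
      · exact ih u v (by rwa [List.take_of_length_le (by omega)] at m ⊢)
  by_cases g : G.Adj u v
  · exact h u v g
  · exact main L.length u v (by rw [List.take_length, l2]; exact ⟨uv, g⟩)

lemma lower {n s t N : ℕ} (hN : s + t = N + 1) (hn : N ≤ n) (G : SimpleGraph (Fin n))
    (w : WSat (completeBipartiteGraph (Fin s) (Fin t)) G) : N.choose 2 ≤ G.edgeSet.ncard := by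
  classical
  obtain ⟨x, x1, x2⟩ := vecs n N
  let P := {p : Fin N × Fin N // p.1 < p.2}
  let E := {p : Fin n × Fin n // p.1 < p.2 ∧ G.Adj p.1 p.2}
  let φ : (P → ℚ) → Fin n → Fin n → ℚ := fun ψ u v =>
    ∑ p : P, ψ p * (x u p.1.1 * x v p.1.2 - x u p.1.2 * x v p.1.1)
  let T : (P → ℚ) →ₗ[ℚ] (E → ℚ) :=
    { toFun := fun ψ e => φ ψ e.1.1 e.1.2
      map_add' := fun a b => funext fun e => by simp [φ, add_mul, sum_add_distrib]
      map_smul' := fun a b => funext fun e => by simp [φ, mul_sum, mul_assoc] }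
  have an : ∀ ψ u v, φ ψ u v = -φ ψ v u := fun ψ u v => by
    simp only [φ, ← sum_neg_distrib]
    exact sum_congr rfl fun p _ => by ring
  have inj : Function.Injective T := by
    rw [injective_iff_map_eq_zero]
    intro ψ h
    have z := spread (φ ψ) (an ψ) (fun f hf => by
      obtain ⟨c, c0, c1⟩ := x2 f hf (by simp [hN])
      refine ⟨c, c0, fun u => ?_⟩
      simp only [φ, mul_sum]
      rw [sum_comm]
      refine sum_eq_zero fun p _ => ?_
      have : ∑ i, c i * (ψ p * (x u p.1.1 * x (f i) p.1.2 - x u p.1.2 * x (f i) p.1.1)) =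
          ψ p * (x u p.1.1 * ∑ i, c i * x (f i) p.1.2 - x u p.1.2 * ∑ i, c i * x (f i) p.1.1) := by
        simp only [mul_sum, ← sum_sub_distrib]
        exact sum_congr rfl fun i _ => by ring
      rw [this, c1, c1]
      simp) G w (fun u v g => by
      rcases lt_or_gt_of_ne g.ne with l | l
      · exact congrFun h ⟨(u, v), l, g⟩
      · have : φ ψ v u = 0 := congrFun h ⟨(v, u), l, g.symm⟩
        rw [an, this, neg_zero])
    funext p
    obtain ⟨⟨a, b⟩, ab⟩ := p
    have y := z (Fin.castLE hn a) (Fin.castLE hn b) fun e => ab.ne (Fin.castLE_injective hn e)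
    simp only [φ, x1 (Fin.castLE hn a) a _ rfl, x1 (Fin.castLE hn b) b _ rfl] at y
    rw [sum_eq_single ⟨(a, b), ab⟩ (fun q _ hq => ?_) (by simp)] at y
    · simpa [ab.ne, ab.ne'] using y
    · obtain ⟨⟨a', b'⟩, ab'⟩ := q
      have : ¬(a = a' ∧ b = b') := fun e => hq (by simp [e.1, e.2])
      have : ¬(a = b' ∧ b = a') := fun e => by
        simp only at ab ab'
        omega
      simp only
      split_ifs <;> first | ring1 | tauto
  have c := LinearMap.finrank_le_finrank_of_injective inj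
  rw [Module.finrank_fintype_fun_eq_card, Module.finrank_fintype_fun_eq_card,
    Fintype.card_subtype, Fintype.card_product_filter_lt, Fintype.card_fin] at c
  refine c.trans ?_
  rw [← Nat.card_coe_set_eq, ← Nat.card_eq_fintype_card]
  refine Nat.card_le_card_of_injective (fun e => ⟨s(e.1.1, e.1.2), e.2.2⟩) fun e e' h => ?_
  have a := e.2.1
  have b := e'.2.1
  rcases Sym2.eq_iff.1 (Subtype.ext_iff.1 h) with ⟨p, q⟩ | ⟨p, q⟩
  · exact Subtype.ext (Prod.ext p q)
  · omega

end Pool.Agent.H.MP_6ac647_co
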