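import Mathlib
import Pool.Agent.H.MP_6ac647_co.Base

set_option autoImplicit false

namespace Pool.Agent.H.MP_6ac647_co

open SimpleGraph Finset

lemma uses_sets {V : Type} {s t : ℕ} (K : SimpleGraph V) (A B : Finset V) (hA : #A = s)
    (hB : #B = t) (d : Disjoint A B) (h : ∀ a ∈ A, ∀ b ∈ B, K.Adj a b) {u v : V} (hu : u ∈ A)
    (hv : v ∈ B) : Uses (completeBipartiteGraph (Fin s) (Fin t)) K s(u, v) := by
  let f := (equivFinOfCardEq hA).symm
  let g := (equivFinOfCardEq hB).symm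
  refine ⟨⟨⟨Sum.elim (fun a => (f a : V)) fun b => (g b : V), ?_⟩, ?_⟩,
    .inl (f.symm ⟨u, hu⟩), .inr (g.symm ⟨v, hv⟩), by simp, ?_⟩
  · rintro (a | a) (b | b) e
    · simp at e
    · exact h _ (f a).2 _ (g b).2
    · exact (h _ (f b).2 _ (g a).2).symm
    · simp at e
  · rintro (a | a) (b | b) e
    · exact congrArg _ (f.injective (Subtype.ext e))
    · have e : (f a : V) = g b := e
      exact absurd (e ▸ (f a).2) (disjoint_right.1 d (g b).2)
    · have e : (g a : V) = f b := e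
      exact absurd (e ▸ (g a).2) (disjoint_left.1 d (f b).2)
    · exact congrArg _ (g.injective (Subtype.ext e))
  · show s((f (f.symm ⟨u, hu⟩) : V), (g (g.symm ⟨v, hv⟩) : V)) = _
    simp

lemma sets {n a b j : ℕ} (hn : n = a + 1 + (b + 1) + j) (K : SimpleGraph (Fin n))
    (Z D : Finset (Fin n)) (u v : Fin n) (hZ : #Z = a) (hD : #D ≤ j + 1) (vZ : v ∉ Z) (uZ : u ∉ Z)
    (uD : u ∈ D) (uv : u ≠ v) (h1 : ∀ z ∈ Z, ∀ y, y ∉ Z → K.Adj z y)
    (h2 : ∀ y, y ≠ v → y ∉ D → K.Adj v y) :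
    ∃ A B : Finset (Fin n), #A = a + 1 ∧ #B = b + 1 ∧ Disjoint A B ∧ v ∈ A ∧ u ∈ B ∧
      ∀ x ∈ A, ∀ y ∈ B, (K ⊔ fromEdgeSet {s(v, u)}).Adj x y := by
  have c : b ≤ #(insert v Z ∪ D)ᶜ := by
    have := card_union_le (insert v Z) D
    rw [card_insert_of_notMem vZ] at this
    rw [card_compl, Fintype.card_fin]
    omega
  obtain ⟨S, s1, s2⟩ := exists_subset_card_eq c
  have s3 : ∀ y ∈ S, y ≠ v ∧ y ∉ Z ∧ y ∉ D := fun y hy => by simpa [not_or] using s1 hy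
  refine ⟨insert v Z, insert u S, by rw [card_insert_of_notMem vZ, hZ],
    by rw [card_insert_of_notMem fun h => (s3 u h).2.2 uD, s2], disjoint_left.2 fun x hx hy => ?_,
    mem_insert_self _ _, mem_insert_self _ _, fun x hx y hy => ?_⟩
  · rcases mem_insert.1 hy with rfl | hy
    · exact (mem_insert.1 hx).elim uv uZ
    · exact (mem_insert.1 hx).elim (s3 x hy).1 (s3 x hy).2.1
  · rcases mem_insert.1 hx with rfl | hx
    · rcases mem_insert.1 hy with rfl | hy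
      · exact Or.inr ⟨rfl, uv.symm⟩
      · exact Or.inl (h2 y (s3 y hy).1 (s3 y hy).2.2)
    · refine Or.inl (h1 x hx y ?_)
      rcases mem_insert.1 hy with rfl | hy
      · exact uZ
      · exact (s3 y hy).2.1

def G1 (n p d : ℕ) : SimpleGraph (Fin n) where
  Adj u v := u ≠ v ∧ (((u : ℕ) < p ∧ p ≤ (v : ℕ)) ∨ ((v : ℕ) < p ∧ p ≤ (u : ℕ)) ∨
    (d ≤ (u : ℕ) ∧ (u : ℕ) < p ∧ d ≤ (v : ℕ) ∧ (v : ℕ) < p) ∨ (p + d ≤ (u : ℕ) ∧ p + d ≤ (v : ℕ)))
  symm := ⟨fun u v h => ⟨h.1.symm, by tauto⟩⟩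
  loopless := ⟨fun u h => h.1 rfl⟩

lemma cI {n : ℕ} (a b : ℕ) (h : b ≤ n) : #{i : Fin n | a ≤ (i : ℕ) ∧ (i : ℕ) < b} = b - a := by
  rw [← Nat.card_Ico, ← card_map Fin.valEmbedding]
  congr 1
  ext x
  simp only [mem_map, mem_filter, mem_univ, true_and, Fin.valEmbedding_apply, mem_Ico]
  exact ⟨fun ⟨y, e, f⟩ => f ▸ e, fun e => ⟨⟨x, by omega⟩, e, rfl⟩⟩

lemma Q1 (s t j : ℕ) (h : j + 1 ≤ t) :
    Q (completeBipartiteGraph (Fin (s + 1)) (Fin (t + 1)))
      (G1 (s + 1 + (t + 1) + j) (s + j + 2) (j + 1)) := by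
  classical
  intro K l ne
  have ad : ∀ u v : Fin (s + 1 + (t + 1) + j), u ≠ v → ¬ K.Adj u v →
      ((u : ℕ) < s + j + 2 ∧ (v : ℕ) < s + j + 2 ∧ ((u : ℕ) < j + 1 ∨ (v : ℕ) < j + 1)) ∨
      (s + j + 2 ≤ (u : ℕ) ∧ s + j + 2 ≤ (v : ℕ) ∧
        ((u : ℕ) < s + j + 2 + (j + 1) ∨ (v : ℕ) < s + j + 2 + (j + 1))) := by
    intro u v a b
    have : ¬ (G1 (s + 1 + (t + 1) + j) (s + j + 2) (j + 1)).Adj u v := fun e => b (l e)
    simp only [G1, ne_eq, a, not_false_eq_true, true_and] at this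
    omega
  by_cases c : ∃ v : Fin (s + 1 + (t + 1) + j), (v : ℕ) < s + j + 2 ∧ ∃ u, u ≠ v ∧ ¬ K.Adj v u
  · obtain ⟨v, hv, mx⟩ := exists_max_image
      {v : Fin (s + 1 + (t + 1) + j) | (v : ℕ) < s + j + 2 ∧ ∃ u, u ≠ v ∧ ¬ K.Adj v u}
      (fun v => (v : ℕ)) (by simpa [Finset.Nonempty] using c)
    simp only [mem_filter, mem_univ, true_and] at hv mx
    obtain ⟨v1, u, uv, nu⟩ := hv
    have sm : ∀ y, y ≠ v → ¬ K.Adj v y → (y : ℕ) < j + 1 := fun y a b => by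
      have p := ad v y a.symm b
      have q := mx y ⟨by omega, v, a.symm, fun e => b e.symm⟩
      omega
    have := sm u uv nu
    obtain ⟨A, B, a1, a2, a3, a4, a5, a6⟩ := sets (a := t) (b := s) (j := j) (by omega) K
      {i | s + j + 2 ≤ (i : ℕ) ∧ (i : ℕ) < s + 1 + (t + 1) + j} {i | 0 ≤ (i : ℕ) ∧ (i : ℕ) < j + 1}
      u v (by rw [cI _ _ le_rfl]; omega) (by rw [cI _ _ (by omega)]; omega) (by simp; omega)
      (by simp; omega) (by simpa using this) uv (fun z hz y hy => by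
        simp only [mem_filter, mem_univ, true_and] at hz hy
        have := y.2
        by_contra e
        have := ad z y (fun q => by rw [q] at hz; exact hy hz) e
        omega) (fun y a b => by
        by_contra e
        exact b (by simpa using sm y a e))
    refine ⟨s(v, u), ⟨uv.symm, nu⟩, ?_⟩
    have := uses_sets _ B A a2 a1 a3.symm (fun x hx y hy => (a6 y hy x hx).symm) a5 a4
    rwa [Sym2.eq_swap (a := u)] at this
  · push Not at c
    have ex : ∃ v u, u ≠ v ∧ ¬ K.Adj v u := by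
      by_contra e
      push Not at e
      exact ne (eq_top_iff.2 fun u v h => e u v (Ne.symm h))
    obtain ⟨v, hv, mx⟩ := exists_max_image
      {v : Fin (s + 1 + (t + 1) + j) | ∃ u, u ≠ v ∧ ¬ K.Adj v u}
      (fun v => (v : ℕ)) (by simpa [Finset.Nonempty] using ex)
    simp only [mem_filter, mem_univ, true_and] at hv mx
    obtain ⟨u, uv, nu⟩ := hv
    have v1 : s + j + 2 ≤ (v : ℕ) := not_lt.1 fun e => nu (c v e u uv)
    have sm : ∀ y, y ≠ v → ¬ K.Adj v y → s + j + 2 ≤ (y : ℕ) ∧ (y : ℕ) < s + j + 2 + (j + 1) :=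
      fun y a b => by
      have p := ad v y a.symm b
      have q := mx y ⟨v, a.symm, fun e => b e.symm⟩
      omega
    have := sm u uv nu
    obtain ⟨A, B, a1, a2, a3, a4, a5, a6⟩ := sets (a := s) (b := t) (j := j) rfl K
      {i | 0 ≤ (i : ℕ) ∧ (i : ℕ) < s} {i | s + j + 2 ≤ (i : ℕ) ∧ (i : ℕ) < s + j + 2 + (j + 1)}
      u v (by rw [cI _ _ (by omega)]; omega) (by rw [cI _ _ (by omega)]; omega) (by simp; omega)
      (by simp; omega) (by simpa using this) uv (fun z hz y hy => by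
        simp only [mem_filter, mem_univ, true_and] at hz hy
        exact c z (by omega) y fun q => by rw [q] at hy; exact hy hz) (fun y a b => by
        by_contra e
        exact b (by simpa using sm y a e))
    exact ⟨s(v, u), ⟨uv.symm, nu⟩, uses_sets _ A B a1 a2 a3 a6 a4 a5⟩

lemma cardG1 (n p d : ℕ) (h : p ≤ n) :
    (G1 n p d).edgeSet.ncard ≤ p * (n - p) + ((p - d).choose 2 + (n - (p + d)).choose 2) := by
  classical
  have sub : (G1 n p d).edgeSet ⊆ ((((({i : Fin n | 0 ≤ (i : ℕ) ∧ (i : ℕ) < p} : Finset _) ×ˢ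
      ({i : Fin n | p ≤ (i : ℕ) ∧ (i : ℕ) < n} : Finset _)).image Sym2.mk.uncurry ∪
      (({i : Fin n | d ≤ (i : ℕ) ∧ (i : ℕ) < p} : Finset _).offDiag.image Sym2.mk.uncurry ∪
      ({i : Fin n | p + d ≤ (i : ℕ) ∧ (i : ℕ) < n} : Finset _).offDiag.image Sym2.mk.uncurry)) :
        Finset _) : Set _) := by
    intro e he
    induction e using Sym2.ind with
    | _ u v =>
      obtain ⟨a, b⟩ : (G1 n p d).Adj u v := he
      simp only [coe_union, coe_image, Set.mem_union, Set.mem_image, mem_coe, mem_offDiag,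
        mem_product, mem_filter, mem_univ, true_and]
      rcases b with b | b | b | b
      · exact Or.inl ⟨(u, v), ⟨⟨Nat.zero_le _, b.1⟩, b.2, v.2⟩, rfl⟩
      · exact Or.inl ⟨(v, u), ⟨⟨Nat.zero_le _, b.1⟩, b.2, u.2⟩, Sym2.eq_swap⟩
      · exact Or.inr (Or.inl ⟨(u, v), ⟨⟨b.1, b.2.1⟩, b.2.2, a⟩, rfl⟩)
      · exact Or.inr (Or.inr ⟨(u, v), ⟨⟨b.1, u.2⟩, ⟨b.2, v.2⟩, a⟩, rfl⟩)
  refine (Set.ncard_le_ncard sub (Set.toFinite _)).trans ?_
  rw [Set.ncard_coe_finset]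
  refine (card_union_le _ _).trans (Nat.add_le_add (card_image_le.trans ?_)
    ((card_union_le _ _).trans ?_))
  · rw [card_product, cI _ _ h, cI _ _ le_rfl, Nat.sub_zero]
  · rw [Sym2.card_image_offDiag, Sym2.card_image_offDiag, cI _ _ h, cI _ _ le_rfl]

lemma ch2 (n : ℕ) : 2 * n.choose 2 + n = n * n := by
  induction n with
  | zero => simp
  | succ n ih => rw [Nat.choose_succ_succ, Nat.choose_one_right]; nlinarith

lemma both (s t j : ℕ) (hs : 0 < s) (h : j + 2 ≤ t) :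
    ∃ w, IsWsat (s + t + j) s t w ∧ (s + t - 1).choose 2 ≤ w ∧
      w ≤ (s + t).choose 2 + j * (s - 1) ∧ w ≤ (s + t - 1).choose 2 + (j + 2).choose 2 := by
  obtain ⟨w, w1, w2⟩ := upper s t j hs (by omega)
  refine ⟨w, w1, ?_, w2, ?_⟩
  · obtain ⟨G, g1, g2⟩ := w1.1
    exact g2 ▸ lower (by omega) (by omega) G g1
  · obtain ⟨s, rfl⟩ : ∃ s', s = s' + 1 := ⟨s - 1, by omega⟩
    obtain ⟨r, rfl⟩ : ∃ r, t = j + 1 + r + 1 := ⟨t - (j + 2), by omega⟩
    obtain ⟨G, g1, g2⟩ := free (completeBipartiteGraph (Fin (s + 1)) (Fin (j + 1 + r + 1)))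
      (.inl 0) (.inr 0) (by simp) _ _ rfl (Q1 s (j + 1 + r) j (by omega))
    refine (w1.2 ⟨G, g1, rfl⟩).trans (g2.trans ((cardG1 _ _ _ (by omega)).trans ?_))
    rw [show s + 1 + (j + 1 + r + 1) + j - (s + j + 2) = j + 1 + r by omega,
      show s + j + 2 - (j + 1) = s + 1 by omega,
      show s + 1 + (j + 1 + r + 1) + j - (s + j + 2 + (j + 1)) = r by omega,
      show s + 1 + (j + 1 + r + 1) - 1 = s + j + r + 2 by omega]
    have := ch2 (s + 1)
    have := ch2 r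
    have := ch2 (s + j + r + 2)
    have := ch2 (j + 2)
    nlinarith

end Pool.Agent.H.MP_6ac647_co
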